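import Pool.Agent.T9h44.NK.SpecA

/-! Inscribed polytopes all of whose edges are longer than a side of a regular triangle. -/

set_option autoImplicit false
set_option linter.unusedVariables false

open Set
open scoped RealInnerProductSpace

namespace Pool.Agent.T9h32.NK

open Pool.Agent.T9h98.DC Pool.Agent.T9h44.NK

/-- edge products at most `c` give all products at most `c` -/
theorem all_le (hC : S_CONE) {d : ℕ} {P : Set (E (d + 1))} {ρ c : ℝ} (hP : IsPolytope P)
    (h1 : ∀ v, Vx P v → ⟪v, v⟫ = ρ) (h2 : ∀ v y, Adj P v y → ⟪v, y⟫ ≤ c)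
    (h3 : ∀ v y, Adj P v y → Vx P y) (hc : c < ρ) {v w : E (d + 1)} (hv : Vx P v) (hw : Vx P w)
    (hne : v ≠ w) : ⟪v, w⟫ ≤ c := by
  have hwP : w ∈ P := hw.2.subset (mem_singleton w)
  obtain ⟨S, l, hS, hl⟩ := hC d P v hP hv w hwP
  have hlt : ⟪v, w⟫ < ρ := by
    have h4 : 0 < ‖v - w‖ ^ 2 := by
      have : 0 < ‖v - w‖ := norm_pos_iff.2 (sub_ne_zero.2 hne)
      positivity
    rw [← real_inner_self_eq_norm_sq, inner_sub_left, inner_sub_right, inner_sub_right, h1 v hv,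
      h1 w hw, real_inner_comm v w] at h4
    linarith
  have hle : ∀ y, Vx P y → ⟪y, w⟫ ≤ ρ := by
    intro y hy
    have h4 : 0 ≤ ‖y - w‖ ^ 2 := by positivity
    rw [← real_inner_self_eq_norm_sq, inner_sub_left, inner_sub_right, inner_sub_right, h1 y hy,
      h1 w hw, real_inner_comm y w] at h4
    linarith
  have e1 : ρ - ⟪v, w⟫ = ∑ y ∈ S, l y * (⟪y, w⟫ - ⟪v, w⟫) := by
    have h5 : ⟪w - v, w⟫ = ρ - ⟪v, w⟫ := by rw [inner_sub_left, h1 w hw]
    rw [← h5, hl, sum_inner]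
    refine Finset.sum_congr rfl fun y _ => ?_
    rw [inner_smul_left, inner_sub_left]
    simp
  have e2 : ⟪v, w⟫ - ρ = ∑ y ∈ S, l y * (⟪v, y⟫ - ρ) := by
    have h5 : ⟪v, w - v⟫ = ⟪v, w⟫ - ρ := by rw [inner_sub_right, h1 v hv]
    rw [← h5, hl, inner_sum]
    refine Finset.sum_congr rfl fun y _ => ?_
    rw [inner_smul_right, inner_sub_right, h1 v hv]
  have hL : 1 ≤ ∑ y ∈ S, l y := by
    have h6 : ∑ y ∈ S, l y * (⟪y, w⟫ - ⟪v, w⟫) ≤ ∑ y ∈ S, l y * (ρ - ⟪v, w⟫) :=
      Finset.sum_le_sum fun y hy => mul_le_mul_of_nonneg_left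
        (by have := hle y (h3 v y (hS y hy).1); linarith) (hS y hy).2
    rw [← e1, ← Finset.sum_mul] at h6
    by_contra hcon
    push Not at hcon
    have : (∑ y ∈ S, l y) * (ρ - ⟪v, w⟫) < 1 * (ρ - ⟪v, w⟫) :=
      mul_lt_mul_of_pos_right hcon (by linarith)
    linarith
  have h7 : ∑ y ∈ S, l y * (⟪v, y⟫ - ρ) ≤ ∑ y ∈ S, l y * (c - ρ) :=
    Finset.sum_le_sum fun y hy => mul_le_mul_of_nonneg_left
      (by have := h2 v y (hS y hy).1; linarith) (hS y hy).2
  rw [← e2, ← Finset.sum_mul] at h7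
  have h8 : (∑ y ∈ S, l y) * (c - ρ) ≤ 1 * (c - ρ) :=
    mul_le_mul_of_nonpos_right hL (by linarith)
  linarith

/-- a polytope of dimension at least two has three vertices -/
theorem three_vx (hF : S_FACES) {d : ℕ} {P : Set (E (d + 2))} (hP : IsPolytope P) :
    ∃ u v w, Vx P u ∧ Vx P v ∧ Vx P w ∧ u ≠ v ∧ u ≠ w ∧ v ≠ w := by
  have hne : P.Nonempty := hP.2.mono interior_subset
  have hf := hF (d + 2) P hP.1
  have hPP := (hf.2.2.2.2.1 hne).1
  have hhull := (hf.1 P hPP).2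
  have hfin := hf.2.2.1
  by_contra hcon
  push Not at hcon
  -- the vertices are among two points
  obtain ⟨u, hu⟩ := (hf.2.2.2.2.1 hne).2
  have hex : ∃ v : E (d + 2), {w | Vx P w ∧ w ∈ P} ⊆ {u, v} := by
    by_cases h : ∃ v, Vx P v ∧ u ≠ v
    · obtain ⟨v, hv, huv⟩ := h
      refine ⟨v, fun w hw => ?_⟩
      by_cases h1 : u = w
      · exact Or.inl h1.symm
      · right
        by_contra h2
        exact h2 (hcon u v w hu hv hw.1 huv h1).symm
    · push Not at h
      exact ⟨u, fun w hw => Or.inl (h w hw.1).symm⟩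
  obtain ⟨v, hv⟩ := hex
  have hsub : P ⊆ convexHull ℝ ({u, v} : Set (E (d + 2))) := by
    conv_lhs => rw [hhull]
    exact convexHull_mono hv
  have h1 : vectorSpan ℝ P = ⊤ := by
    have h2 := hP.2
    have : affineSpan ℝ P = ⊤ :=
      affineSpan_eq_top_of_nonempty_interior (h2.mono (interior_mono (subset_convexHull ℝ P)))
    rw [← direction_affineSpan, this, AffineSubspace.direction_top]
  have h2 : vectorSpan ℝ P ≤ vectorSpan ℝ ({u, v} : Set (E (d + 2))) := by
    rw [← direction_affineSpan ℝ ({u, v} : Set (E (d + 2))), ← affineSpan_convexHull,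
      direction_affineSpan]
    exact vectorSpan_mono ℝ hsub
  rw [h1, top_le_iff, vectorSpan_pair] at h2
  have h3 : Module.finrank ℝ (⊤ : Submodule ℝ (E (d + 2))) ≤ 1 := by
    rw [← h2]
    refine (finrank_span_le_card _).trans ?_
    simp
  rw [finrank_top, finrank_euclideanSpace_fin] at h3
  omega

end Pool.Agent.T9h32.NK
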